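import Pool.Agent.H48.RG.Defs

/-! Partial regularity of stationary harmonic maps (MP_2697e3_an), part D (decay of the Morrey norm of the
gradient): targets. Every `T_X` is the statement of the row `X`. -/

namespace Pool.Agent.H48.RG

open MeasureTheory Metric Set Filter Topology Pool.Agent.H87.SN
open scoped ContDiff RealInnerProductSpace ENNReal

noncomputable section

/-- The Laplacian. -/
def lp {n : ℕ} (f : E n → ℝ) (x : E n) : ℝ :=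
  ∑ i : Fin n, fderiv ℝ (fun y => fderiv ℝ f y (bv i)) x (bv i)

/-- The gradient of `φ f`. -/
def dm {n : ℕ} (φ f : E n → ℝ) (D : E n → E n) (x : E n) : E n := φ x • D x + f x • gradient φ x

/-- Cutoff functions. -/
structure Cf {n : ℕ} (ζ : E n → ℝ) (B : ℝ) : Prop where
  sm : ContDiff ℝ ∞ ζ
  bd : ∀ x, 0 ≤ ζ x ∧ ζ x ≤ 1
  one : ∀ x ∈ ball (0 : E n) (13 / 16), ζ x = 1
  sp : tsupport ζ ⊆ closedBall 0 (7 / 8)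
  gr : ∀ x, ‖fderiv ℝ ζ x‖ ≤ B

/-- The rotated gradient `P^T ∇u`. -/
def ww {n m : ℕ} (P : Fin m → Fin m → E n → ℝ) (D : Fin m → E n → E n) (j : Fin m) (x : E n) : E n :=
  ∑ k, P k j x • D k x

/-! ### Calculus of bounded functions with square integrable weak gradient -/

/-- CF0: cutoff functions exist. -/
def T_CF0 : Prop := ∀ n : ℕ, ∃ (ζ : E n → ℝ) (B : ℝ), 0 ≤ B ∧ Cf ζ B

/-- SMW: product with a smooth function. -/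
def T_SMW : Prop := ∀ (n : ℕ) (y : E n) (r : ℝ) (φ f : E n → ℝ) (D : E n → E n), ContDiff ℝ ∞ φ →
    WB (ball y r) f D → WB (ball y r) (fun x => φ x * f x) (dm φ f D)

/-- EXT: extension by zero. -/
def T_EXT : Prop := ∀ (n : ℕ) (ρ : ℝ) (f : E n → ℝ) (D : E n → E n), 0 < ρ → ρ < 1 →
    WB (ball 0 1) f D → (∀ x, x ∉ closedBall (0 : E n) ρ → f x = 0 ∧ D x = 0) → WC ρ f D

/-- MLS: approximation by test functions. -/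
def T_MLS : Prop := ∀ (n : ℕ) (ρ : ℝ) (f : E n → ℝ) (D : E n → E n), 0 < ρ → ρ < 1 → WC ρ f D →
    ∃ F : ℕ → E n → ℝ, (∀ k, Tst (ball 0 1) (F k)) ∧
      (∀ᵐ x, Tendsto (fun k => F k x) atTop (𝓝 (f x))) ∧
      (∀ B : ℝ, (∀ᵐ x, |f x| ≤ B) → ∀ k x, |F k x| ≤ B) ∧
      (∀ k, MemLp (fun x => gradient (F k) x - D x) 2 volume) ∧
      Tendsto (fun k => ∫ x, ‖gradient (F k) x - D x‖ ^ 2) atTop (𝓝 0)

/-- TSE: extension of the class of test functions. -/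
def T_TSE : Prop := ∀ (n : ℕ) (G : E n → E n) (h : E n → ℝ),
    MemLp G 2 (volume.restrict (ball (0 : E n) 1)) → IntegrableOn h (ball (0 : E n) 1) →
    (∀ φ, Tst (ball (0 : E n) 1) φ →
      ∫ x in ball (0 : E n) 1, fderiv ℝ φ x (G x) = ∫ x in ball (0 : E n) 1, φ x * h x) →
    ∀ (ρ : ℝ) (f : E n → ℝ) (D : E n → E n), 0 < ρ → ρ < 1 → WC ρ f D →
      ∫ x in ball (0 : E n) 1, ⟪G x, D x⟫ = ∫ x in ball (0 : E n) 1, f x * h x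

/-- LEI: Leibniz rule. -/
def T_LEI : Prop := ∀ (n : ℕ) (f g : E n → ℝ) (Df Dg : E n → E n), WB (ball (0 : E n) 1) f Df →
    WB (ball (0 : E n) 1) g Dg →
    WB (ball (0 : E n) 1) (fun x => f x * g x) (fun x => f x • Dg x + g x • Df x)

/-- UNI: the weak gradient is unique. -/
def T_UNI : Prop := ∀ (n : ℕ) (f g : E n → ℝ) (Df Dg : E n → E n), WB (ball (0 : E n) 1) f Df →
    WB (ball (0 : E n) 1) g Dg → (∀ᵐ x ∂(volume.restrict (ball (0 : E n) 1)), f x = g x) →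
    ∀ᵐ x ∂(volume.restrict (ball (0 : E n) 1)), Df x = Dg x

/-- IBG: integration by parts with a divergence free vector field. -/
def T_IBG : Prop := ∀ (n : ℕ) (G : E n → E n), MemLp G 2 (volume.restrict (ball (0 : E n) 1)) →
    (∀ φ, Tst (ball (0 : E n) 1) φ → ∫ x in ball (0 : E n) 1, fderiv ℝ φ x (G x) = 0) →
    ∀ (ρ : ℝ) (f g : E n → ℝ) (Df Dg : E n → E n), 0 < ρ → ρ < 1 → WB (ball (0 : E n) 1) f Df →
      WC ρ g Dg → ∫ x in ball (0 : E n) 1, g x * ⟪G x, Df x⟫ =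
        - ∫ x in ball (0 : E n) 1, f x * ⟪G x, Dg x⟫

/-! ### Poincaré inequality and cut off functions -/

/-- APX: approximation by smooth functions on smaller balls. -/
def T_APX : Prop := ∀ (n : ℕ) (r : ℝ) (f : E n → ℝ) (D : E n → E n), r < 1 →
    WB (ball (0 : E n) 1) f D → ∃ F : ℕ → E n → ℝ, (∀ k, ContDiff ℝ ∞ (F k)) ∧
      Tendsto (fun k => ∫ x in closedBall (0 : E n) r, |F k x - f x|) atTop (𝓝 0) ∧
      Tendsto (fun k => ∫ x in closedBall (0 : E n) r, ‖gradient (F k) x - D x‖) atTop (𝓝 0)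

/-- POI: Poincaré inequality in `L¹` on balls. -/
def T_POI : Prop := ∀ n : ℕ, ∃ C : ℝ, 0 ≤ C ∧ ∀ (f : E n → ℝ) (D : E n → E n),
    WB (ball (0 : E n) 1) f D → ∀ (y : E n) (s : ℝ), 0 < s → ‖y‖ + s < 1 →
    ∫ x in closedBall y s, |f x - ⨍ z in closedBall y s, f z| ≤
      C * s * ∫ x in closedBall y s, ‖D x‖

/-- MOB: the cut off function has a gradient in the Morrey space. -/
def T_MOB : Prop := ∀ (n : ℕ) (ζ : E n → ℝ) (B : ℝ), 1 ≤ n → 0 ≤ B → Cf ζ B → ∃ C : ℝ, 0 ≤ C ∧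
    ∀ (f : E n → ℝ) (D : E n → E n) (M : ℝ), 0 ≤ M → WB (ball (0 : E n) 1) f D →
    Mor (ball (0 : E n) 1) M D → ∃ c : ℝ,
      WC (7 / 8) (fun x => ζ x * (f x - c)) (dm ζ (fun x => f x - c) D) ∧
      Mor univ (C * M) (dm ζ (fun x => f x - c) D)

/-- POB: the energy of the cut off function. -/
def T_POB : Prop := ∀ (n : ℕ) (ζ : E n → ℝ) (B : ℝ), 0 ≤ B → Cf ζ B → ∃ C : ℝ, 0 ≤ C ∧
    ∀ (f : E n → ℝ) (D : E n → E n) (e : ℝ), 0 ≤ e → e ≤ 1 → WB (ball (0 : E n) 1) f D →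
    (∀ᵐ x ∂(volume.restrict (ball (0 : E n) 1)), |f x| ≤ 1) →
    ∫ x in ball (0 : E n) 1, ‖D x‖ ^ 2 ≤ e ^ 2 → ∃ c : ℝ,
      WC (7 / 8) (fun x => ζ x * (f x - c)) (dm ζ (fun x => f x - c) D) ∧
      ∫ x, ‖dm ζ (fun x => f x - c) D x‖ ^ 2 ≤ C * e

/-! ### The dual fields -/

/-- POT: approximate potentials. -/
def T_POT : Prop := ∀ n : ℕ, 1 ≤ n → ∃ C : ℝ, 0 ≤ C ∧ ∀ θ : ℝ, 0 < θ → θ ≤ 1 / 4 →
    ∀ f : E n → ℝ, Tst (ball (0 : E n) θ) f → (∀ x, |f x| ≤ 1) →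
    ∃ X : E n → ℝ, ContDiff ℝ ∞ X ∧ tsupport X ⊆ closedBall (0 : E n) (3 / 4) ∧
      (∀ x, ‖fderiv ℝ X x‖ ≤ C) ∧ ∀ x, |lp X x - f x| ≤ C * θ ^ n

/-- LPI: the `L²` norm of the Hessian. -/
def T_LPI : Prop := ∀ (n : ℕ) (X : E n → ℝ), ContDiff ℝ ∞ X → HasCompactSupport X →
    ∀ a : Fin n, (∫ x, ‖gradient (fun y => fderiv ℝ X y (bv a)) x‖ ^ 2) ≤ ∫ x, lp X x ^ 2

/-- HLM: decomposition of a vector field supported in a small ball. -/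
def T_HLM : Prop := ∀ n : ℕ, 1 ≤ n → ∃ C : ℝ, 0 ≤ C ∧ ∀ θ : ℝ, 0 < θ → θ ≤ 1 / 4 →
    ∀ f : E n → ℝ, Tst (ball (0 : E n) θ) f → (∀ x, |f x| ≤ 1) → ∀ i : Fin n,
    ∃ (a : E n → ℝ) (H R : E n → E n), ContDiff ℝ ∞ a ∧ tsupport a ⊆ closedBall (0 : E n) (3 / 4) ∧
      (∀ x, |a x| ≤ C) ∧ (∫ x, ‖gradient a x‖ ^ 2) ≤ C ∧
      Continuous H ∧ (∀ x, x ∉ closedBall (0 : E n) (3 / 4) → H x = 0) ∧ DF H ∧
      (∫ x, ‖H x‖ ^ 2) ≤ C ∧ Continuous R ∧ (∀ x, x ∉ closedBall (0 : E n) (3 / 4) → R x = 0) ∧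
      (∀ x, ‖R x‖ ≤ C * θ ^ n) ∧ ∀ x, f x • bv i = gradient a x + H x + R x

/-- DUA: duality for the `L¹` norm. -/
def T_DUA : Prop := ∀ (n : ℕ) (θ K : ℝ) (w : E n → ℝ), 0 < θ → IntegrableOn w (ball (0 : E n) θ) →
    (∀ f, Tst (ball (0 : E n) θ) f → (∀ x, |f x| ≤ 1) → ∫ x in ball (0 : E n) θ, f x * w x ≤ K) →
    ∫ x in ball (0 : E n) θ, |w x| ≤ K

/-! ### Decay on the unit ball -/

/-- GEQ: the equation in the gauge. -/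
def T_GEQ : Prop := ∀ (n m : ℕ) (K : ℝ) (u : Fin m → E n → ℝ) (D : Fin m → E n → E n)
    (Om : Fin m → Fin m → E n → E n) (P : Fin m → Fin m → E n → ℝ) (DP : Fin m → Fin m → E n → E n),
    Sys K (ball 0 1) u D Om → Gau Om P DP → ∀ (ρ : ℝ) (f : E n → ℝ) (Df : E n → E n) (j : Fin m),
    0 < ρ → ρ < 1 → WC ρ f Df →
    ∫ x in ball (0 : E n) 1, ⟪ww P D j x, Df x⟫ =
      ∫ x in ball (0 : E n) 1, f x * ∑ i, ⟪EE P DP Om j i x, ww P D i x⟫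

/-- WWP: algebra and integrability in the gauge. -/
def T_WWP : Prop := ∀ (n m : ℕ) (K : ℝ) (u : Fin m → E n → ℝ) (D : Fin m → E n → E n)
    (Om : Fin m → Fin m → E n → E n) (P : Fin m → Fin m → E n → ℝ) (DP : Fin m → Fin m → E n → E n),
    Sys K (ball 0 1) u D Om → Gau Om P DP →
    (∀ᵐ x ∂(volume.restrict (ball (0 : E n) 1)), (∀ i j, |P i j x| ≤ 1) ∧
      (∀ k, D k x = ∑ j, P k j x • ww P D j x) ∧ (∀ j, ‖ww P D j x‖ ≤ ∑ k, ‖D k x‖) ∧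
      ∀ k, ‖D k x‖ ≤ ∑ j, ‖ww P D j x‖) ∧
    (∀ j, MemLp (ww P D j) 2 (volume.restrict (ball (0 : E n) 1))) ∧
    (∀ i j, MemLp (EE P DP Om i j) 2 (volume.restrict (ball (0 : E n) 1))) ∧
    (∀ i j, MemLp (Om i j) 2 (volume.restrict (ball (0 : E n) 1))) ∧
    ∑ i, ∑ j, ∫ x in ball (0 : E n) 1, ‖Om i j x‖ ^ 2 ≤
      m ^ 3 * K ^ 2 * ∑ k, ∫ x in ball (0 : E n) 1, ‖D k x‖ ^ 2

/-- DE1: the gradient part. -/
def T_DE1 : Prop := ∀ (n m : ℕ) (K A : ℝ), 1 ≤ n → 0 ≤ K → 0 ≤ A → ∃ C : ℝ, 0 ≤ C ∧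
    ∀ (u : Fin m → E n → ℝ) (D : Fin m → E n → E n)
    (Om : Fin m → Fin m → E n → E n) (P : Fin m → Fin m → E n → ℝ) (DP : Fin m → Fin m → E n → E n)
    (M e : ℝ), Sys K (ball 0 1) u D Om → Gau Om P DP → 0 ≤ M → (∀ k, Mor (ball 0 1) M (D k)) →
    0 ≤ e → e ≤ 1 → ∑ k, ∫ x in ball (0 : E n) 1, ‖D k x‖ ^ 2 ≤ e ^ 2 →
    ∀ a : E n → ℝ, ContDiff ℝ ∞ a → tsupport a ⊆ closedBall (0 : E n) (3 / 4) →
    (∀ x, |a x| ≤ A) → (∫ x, ‖gradient a x‖ ^ 2) ≤ A → ∀ j,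
    |∫ x in ball (0 : E n) 1, ⟪ww P D j x, gradient a x⟫| ≤ C * e * M

/-- DE2: the divergence free part. -/
def T_DE2 : Prop := ∀ (n m : ℕ) (K A : ℝ), 1 ≤ n → 0 ≤ K → 0 ≤ A → ∃ C e₀ : ℝ, 0 ≤ C ∧ 0 < e₀ ∧
    e₀ ≤ 1 ∧ ∀ (u : Fin m → E n → ℝ) (D : Fin m → E n → E n)
    (Om : Fin m → Fin m → E n → E n) (P : Fin m → Fin m → E n → ℝ) (DP : Fin m → Fin m → E n → E n)
    (M e : ℝ), Sys K (ball 0 1) u D Om → Gau Om P DP → 0 ≤ M → (∀ k, Mor (ball 0 1) M (D k)) →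
    0 ≤ e → e ≤ e₀ → ∑ k, ∫ x in ball (0 : E n) 1, ‖D k x‖ ^ 2 ≤ e ^ 4 →
    ∀ H : E n → E n, Continuous H → (∀ x, x ∉ closedBall (0 : E n) (3 / 4) → H x = 0) → DF H →
    (∫ x, ‖H x‖ ^ 2) ≤ A → ∀ j,
    |∫ x in ball (0 : E n) 1, ⟪ww P D j x, H x⟫| ≤ C * e * M

/-- DEC: decay on the unit ball. -/
def T_DEC : Prop := ∀ (n m : ℕ) (K : ℝ), 1 ≤ n → 0 ≤ K → ∃ C : ℝ, 1 ≤ C ∧ ∀ θ : ℝ, 0 < θ →
    θ ≤ 1 / 4 → ∃ ε : ℝ, 0 < ε ∧ ∀ (u : Fin m → E n → ℝ) (D : Fin m → E n → E n)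
    (Om : Fin m → Fin m → E n → E n) (M : ℝ), Sys K (ball 0 1) u D Om → 0 ≤ M →
    (∀ k, Mor (ball 0 1) M (D k)) → ∑ k, ∫ x in ball (0 : E n) 1, ‖D k x‖ ^ 2 ≤ ε →
    ∀ k, ∫ x in ball (0 : E n) θ, ‖D k x‖ ≤ C * θ ^ n * M

/-! ### All balls -/

/-- SRS: restriction to smaller balls. -/
def T_SRS : Prop := ∀ (n m : ℕ) (K : ℝ) (x y : E n) (r s : ℝ) (u : Fin m → E n → ℝ)
    (D : Fin m → E n → E n) (Om : Fin m → Fin m → E n → E n), Sys K (ball x r) u D Om →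
    ball y s ⊆ ball x r → Sys K (ball y s) u D Om

/-- SCL: decay on all balls. -/
def T_SCL : Prop := ∀ (n m : ℕ) (K : ℝ), 1 ≤ n → 0 ≤ K → ∃ C : ℝ, 1 ≤ C ∧ ∀ θ : ℝ, 0 < θ →
    θ ≤ 1 / 4 → ∃ ε : ℝ, 0 < ε ∧ ∀ (y : E n) (r : ℝ) (u : Fin m → E n → ℝ) (D : Fin m → E n → E n)
    (Om : Fin m → Fin m → E n → E n) (M : ℝ), 0 < r → Sys K (ball y r) u D Om → 0 ≤ M →
    (∀ k, Mor (ball y r) M (D k)) →
    ∑ k, ∫ x in ball y r, ‖D k x‖ ^ 2 ≤ ε * (r ^ n / r ^ 2) →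
    ∀ k, ∫ x in ball y (θ * r), ‖D k x‖ ≤ C * θ ^ n * M * r ^ (n - 1)

/-- ITE: decay with the exponent three quarters. -/
def T_ITE : Prop := ∀ (n m : ℕ) (K : ℝ), 1 ≤ n → 0 ≤ K → ∃ ε C : ℝ, 0 < ε ∧ 0 ≤ C ∧
    ∀ (x₀ : E n) (R : ℝ) (u : Fin m → E n → ℝ) (D : Fin m → E n → E n)
    (Om : Fin m → Fin m → E n → E n), 0 < R → Sys K (ball x₀ R) u D Om →
    (∀ (y : E n) (s : ℝ), 0 < s → ball y s ⊆ ball x₀ R →
      ∑ k, ∫ x in ball y s, ‖D k x‖ ^ 2 ≤ ε * (s ^ n / s ^ 2)) →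
    ∀ (k : Fin m), ∀ y ∈ ball x₀ (R / 2), ∀ s : ℝ, 0 < s → s ≤ R / 2 →
      ∫ x in ball y s, ‖D k x‖ ≤ C * (s / R) ^ (3 / 4 : ℝ) * s ^ (n - 1)

end

end Pool.Agent.H48.RG
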