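import Pool.Agent.H48.RG.Targets

/-! Part D of the regularity theorem, row MOB: the cut off function has a gradient in the Morrey space. -/

set_option autoImplicit false

namespace Pool.Agent.H48.RG

open MeasureTheory Metric Set Filter Topology Pool.Agent.H87.SN
open scoped ContDiff RealInnerProductSpace ENNReal

noncomputable section

theorem bdd_integrableOn {n : ℕ} {S : Set (E n)} (hS : volume S ≠ ⊤) {f : E n → ℝ} {B : ℝ}
    (hm : AEStronglyMeasurable f (volume.restrict S))
    (hb : ∀ᵐ x ∂(volume.restrict S), |f x| ≤ B) : IntegrableOn f S := by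
  have hfin : IsFiniteMeasure (volume.restrict S) := ⟨by
    rw [Measure.restrict_apply_univ]
    exact lt_top_iff_ne_top.2 hS⟩
  refine Integrable.of_bound hm B ?_
  filter_upwards [hb] with x hx
  rw [Real.norm_eq_abs]
  exact hx

theorem WB.sub_const {n : ℕ} {f : E n → ℝ} {D : E n → E n} (h : WB (ball (0 : E n) 1) f D) (c : ℝ) :
    WB (ball (0 : E n) 1) (fun x => f x - c) D := by
  obtain ⟨B, hB⟩ := h.bd
  refine ⟨h.ms.sub aestronglyMeasurable_const, ⟨B + |c|, ?_⟩, h.d2, ?_⟩
  · filter_upwards [hB] with x hx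
    have h1 := abs_sub (f x) c
    linarith
  intro φ hφ v
  have h1 := h.wg φ hφ v
  obtain ⟨hs, hc, ht⟩ := hφ
  have hcont : Continuous (fun x => fderiv ℝ φ x v) :=
    (hs.continuous_fderiv (by simp)).clm_apply continuous_const
  have hcs : HasCompactSupport (fun x => fderiv ℝ φ x v) := by
    have h2 := hc.fderiv (𝕜 := ℝ)
    refine h2.mono ?_
    intro x hx hx0
    apply hx
    change fderiv ℝ φ x v = 0
    rw [show fderiv ℝ φ x = 0 from hx0]
    rfl
  have hint : Integrable (fun x => fderiv ℝ φ x v) := hcont.integrable_of_hasCompactSupport hcs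
  obtain ⟨T, hT⟩ := hcs.exists_bound_of_continuous hcont
  have hoff : ∀ x, x ∉ ball (0 : E n) 1 → fderiv ℝ φ x v = 0 := by
    intro x hx
    have h3 : fderiv ℝ φ x = 0 := by
      by_contra h4
      exact hx (ht (support_fderiv_subset ℝ (f := φ) h4))
    rw [h3]
    rfl
  have hf : IntegrableOn f (ball (0 : E n) 1) := bdd_integrableOn measure_ball_lt_top.ne h.ms hB
  have hfi : Integrable (fun x => fderiv ℝ φ x v * f x) := by
    have h5 : IntegrableOn (fun x => fderiv ℝ φ x v * f x) (ball (0 : E n) 1) := by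
      refine Integrable.bdd_mul (c := T) hf hcont.aestronglyMeasurable.restrict ?_
      exact Eventually.of_forall fun x => hT x
    refine (integrableOn_iff_integrable_of_support_subset ?_).1 h5
    intro x hx
    by_contra h6
    apply hx
    change fderiv ℝ φ x v * f x = 0
    rw [hoff x h6, zero_mul]
  have hz : ∫ x, fderiv ℝ φ x v = 0 := by
    have h7 := integral_mul_fderiv_eq_neg_fderiv_mul_of_integrable (𝕜 := ℝ)
      (μ := (volume : Measure (E n))) (f := fun _ => (1 : ℝ)) (g := φ) (v := v)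
      (by simp) (by simpa using hint)
      (by simpa using hs.continuous.integrable_of_hasCompactSupport hc)
      (fun x _ => differentiableAt_const _)
      (fun x _ => (hs.differentiable (by simp)) x)
    simpa using h7
  have h8 : ∀ x, fderiv ℝ φ x v * (f x - c) = fderiv ℝ φ x v * f x - fderiv ℝ φ x v * c :=
    fun x => by ring
  simp_rw [h8]
  rw [integral_sub hfi (hint.mul_const c), integral_mul_const, hz, zero_mul, sub_zero, h1]

theorem norm_gradient_eq {n : ℕ} (φ : E n → ℝ) (x : E n) : ‖gradient φ x‖ = ‖fderiv ℝ φ x‖ := by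
  rw [gradient]
  exact LinearIsometryEquiv.norm_map _ _

theorem Cf.off {n : ℕ} {ζ : E n → ℝ} {B : ℝ} (h : Cf ζ B) {x : E n}
    (hx : x ∉ closedBall (0 : E n) (7 / 8)) : ζ x = 0 ∧ gradient ζ x = 0 := by
  have h1 : x ∉ tsupport ζ := fun h2 => hx (h.sp h2)
  refine ⟨image_eq_zero_of_notMem_tsupport h1, ?_⟩
  have h2 : fderiv ℝ ζ x = 0 := by
    by_contra h4
    exact h1 (support_fderiv_subset ℝ (f := ζ) h4)
  rw [gradient, h2, map_zero]

/-- The cut off function, with its gradient. -/
theorem cut_wc (hS : T_SMW) (hE : T_EXT) {n : ℕ} {ζ : E n → ℝ} {B : ℝ} (hζ : Cf ζ B)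
    {f : E n → ℝ} {D : E n → E n} (h : WB (ball (0 : E n) 1) f D) (c : ℝ) :
    WC (7 / 8) (fun x => ζ x * (f x - c)) (dm ζ (fun x => f x - c) D) := by
  refine hE n (7 / 8) _ _ (by norm_num) (by norm_num) (hS n 0 1 ζ _ D hζ.sm (h.sub_const c)) ?_
  intro x hx
  obtain ⟨h1, h2⟩ := hζ.off hx
  refine ⟨by simp [h1], ?_⟩
  simp [dm, h1, h2]

theorem norm_dm_le {n : ℕ} {ζ : E n → ℝ} {B : ℝ} (hζ : Cf ζ B) (g : E n → ℝ) (D : E n → E n)
    (x : E n) : ‖dm ζ g D x‖ ≤ ‖D x‖ + B * |g x| := by
  have h1 := hζ.bd x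
  have h2 := hζ.gr x
  calc ‖dm ζ g D x‖ ≤ ‖ζ x • D x‖ + ‖g x • gradient ζ x‖ := norm_add_le _ _
    _ = |ζ x| * ‖D x‖ + |g x| * ‖fderiv ℝ ζ x‖ := by
        rw [norm_smul, norm_smul, norm_gradient_eq, Real.norm_eq_abs, Real.norm_eq_abs]
    _ ≤ 1 * ‖D x‖ + |g x| * B := by
        gcongr
        rw [abs_of_nonneg h1.1]
        exact h1.2
    _ = _ := by ring

theorem closedBall_ae_ball {n : ℕ} (y : E n) {s : ℝ} (hs : s ≠ 0) :
    (closedBall y s : Set (E n)) =ᵐ[volume] ball y s := by
  have h1 : volume (sphere y s) = 0 := Measure.addHaar_sphere_of_ne_zero _ _ hs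
  rw [← ball_union_sphere]
  have h2 : (sphere y s : Set (E n)) =ᵐ[volume] (∅ : Set (E n)) := ae_eq_empty.2 h1
  have h3 := (ae_eq_refl (ball y s : Set (E n)) (μ := volume)).union h2
  rwa [union_empty] at h3

/-- One step of the telescoping. -/
theorem mob_step {n : ℕ} {f : E n → ℝ} {y : E n} {t c J : ℝ} (ht : 0 < t)
    (hfi : IntegrableOn f (closedBall y t)) (hJ : ∫ x in closedBall y t,
      |f x - ⨍ z in closedBall y t, f z| ≤ J) :
    2 ^ n * ∫ x in closedBall y (t / 2), |f x - c| ≤
      2 ^ n * J + ∫ x in closedBall y t, |f x - c| := by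
  obtain ⟨a, ha⟩ : ∃ a : ℝ, a = ⨍ z in closedBall y t, f z := ⟨_, rfl⟩
  rw [← ha] at hJ
  have hsub : closedBall y (t / 2) ⊆ closedBall y t := closedBall_subset_closedBall (by linarith)
  have hv1 : volume (closedBall y t) ≠ ⊤ := measure_closedBall_lt_top.ne
  have hi1 : ∀ b : ℝ, IntegrableOn (fun x => |f x - b|) (closedBall y t) := fun b =>
    (hfi.sub (integrableOn_const hv1)).abs
  have hvol : 2 ^ n * volume.real (closedBall y (t / 2)) = volume.real (closedBall y t) := by
    rw [Measure.addHaar_real_closedBall volume y (by linarith : (0 : ℝ) ≤ t / 2),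
      Measure.addHaar_real_closedBall volume y ht.le, finrank_euclideanSpace_fin, div_pow]
    have : (2 : ℝ) ^ n ≠ 0 := by positivity
    field_simp
  have hac : volume.real (closedBall y t) * |a - c| ≤ ∫ x in closedBall y t, |f x - c| := by
    have hvpos : 0 < volume.real (closedBall y t) := by
      rw [measureReal_def]
      exact ENNReal.toReal_pos (measure_closedBall_pos _ _ ht).ne' hv1
    have h1 : a - c = (volume.real (closedBall y t))⁻¹ * ∫ x in closedBall y t, (f x - c) := by
      rw [integral_sub hfi (integrableOn_const hv1), setIntegral_const, ha, setAverage_eq]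
      simp only [smul_eq_mul]
      field_simp
    have h2 : |∫ x in closedBall y t, (f x - c)| ≤ ∫ x in closedBall y t, |f x - c| :=
      abs_integral_le_integral_abs
    rw [h1, abs_mul, abs_of_pos (inv_pos.2 hvpos), ← mul_assoc, mul_inv_cancel₀ hvpos.ne', one_mul]
    exact h2
  have h3 : ∫ x in closedBall y (t / 2), |f x - c| ≤
      (∫ x in closedBall y (t / 2), |f x - a|) + volume.real (closedBall y (t / 2)) * |a - c| := by
    have hv2 : volume (closedBall y (t / 2)) ≠ ⊤ := measure_closedBall_lt_top.ne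
    have h4 : (∫ x in closedBall y (t / 2), |f x - a|) +
        volume.real (closedBall y (t / 2)) * |a - c| =
        ∫ x in closedBall y (t / 2), (|f x - a| + |a - c|) := by
      rw [integral_add ((hi1 a).mono_set hsub) (integrableOn_const hv2), setIntegral_const,
        smul_eq_mul]
    rw [h4]
    refine setIntegral_mono ((hi1 c).mono_set hsub)
      (((hi1 a).mono_set hsub).add (integrableOn_const hv2)) fun x => ?_
    exact abs_sub_le _ _ _
  have h5 : ∫ x in closedBall y (t / 2), |f x - a| ≤ J := by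
    refine le_trans (setIntegral_mono_set (hi1 a) ?_ hsub.eventuallyLE) hJ
    exact Eventually.of_forall fun x => abs_nonneg _
  have h6 : (0 : ℝ) < 2 ^ n := by positivity
  calc 2 ^ n * ∫ x in closedBall y (t / 2), |f x - c|
      ≤ 2 ^ n * (J + volume.real (closedBall y (t / 2)) * |a - c|) := by
        gcongr
        linarith
    _ = 2 ^ n * J + volume.real (closedBall y t) * |a - c| := by
        rw [← hvol]
        ring
    _ ≤ _ := by linarith

/-- The telescoping: `2^(nj) ∫_{B(y, t/2^j)} |f-c| ≤ ∫_{B(y,t)} |f-c| + j 2^n J`, where `J` bounds the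
mean oscillation at all scales, with the right scaling. -/
theorem mob_iter {n : ℕ} {f : E n → ℝ} {y : E n} {t c J : ℝ} (ht : 0 < t)
    (hfi : IntegrableOn f (closedBall y t))
    (hJ : ∀ j : ℕ, ∫ x in closedBall y (t / 2 ^ j), |f x - ⨍ z in closedBall y (t / 2 ^ j), f z| ≤
      J / (2 ^ n) ^ j) (j : ℕ) :
    (2 ^ n) ^ j * ∫ x in closedBall y (t / 2 ^ j), |f x - c| ≤
      (∫ x in closedBall y t, |f x - c|) + j * (2 ^ n * J) := by
  induction j with
  | zero => simp
  | succ j ih =>
    have h1 : 0 < t / 2 ^ j := by positivity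
    have hle : t / 2 ^ j ≤ t := div_le_self ht.le (one_le_pow₀ (by norm_num))
    have h2 := mob_step (c := c) h1 (hfi.mono_set (closedBall_subset_closedBall hle)) (hJ j)
    have h3 : t / 2 ^ (j + 1) = t / 2 ^ j / 2 := by rw [pow_succ]; field_simp
    rw [h3]
    have h4 : (0 : ℝ) < (2 ^ n) ^ j := by positivity
    calc (2 ^ n) ^ (j + 1) * ∫ x in closedBall y (t / 2 ^ j / 2), |f x - c|
        = (2 ^ n) ^ j * (2 ^ n * ∫ x in closedBall y (t / 2 ^ j / 2), |f x - c|) := by
          rw [pow_succ]; ring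
      _ ≤ (2 ^ n) ^ j * (2 ^ n * (J / (2 ^ n) ^ j) + ∫ x in closedBall y (t / 2 ^ j), |f x - c|) := by
          gcongr
      _ = 2 ^ n * J + (2 ^ n) ^ j * ∫ x in closedBall y (t / 2 ^ j), |f x - c| := by
          field_simp
      _ ≤ 2 ^ n * J + ((∫ x in closedBall y t, |f x - c|) + j * (2 ^ n * J)) := by
          linarith
      _ = _ := by push_cast; ring

theorem WB.integrableOn {n : ℕ} {f : E n → ℝ} {D : E n → E n} (h : WB (ball (0 : E n) 1) f D) :
    IntegrableOn f (ball (0 : E n) 1) := by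
  obtain ⟨B, hB⟩ := h.bd
  exact bdd_integrableOn measure_ball_lt_top.ne h.ms hB

theorem WB.integrableOn_norm {n : ℕ} {f : E n → ℝ} {D : E n → E n}
    (h : WB (ball (0 : E n) 1) f D) : IntegrableOn (fun x => ‖D x‖) (ball (0 : E n) 1) := by
  have hfin : IsFiniteMeasure (volume.restrict (ball (0 : E n) 1)) := ⟨by
    rw [Measure.restrict_apply_univ]
    exact measure_ball_lt_top⟩
  exact (h.d2.integrable (by norm_num)).norm

/-- The bound of `∫ |f - c|` on small balls. -/
theorem mob_small {n : ℕ} (hn : 1 ≤ n) {CP : ℝ} (hCP : 0 ≤ CP)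
    (hPn : ∀ (f : E n → ℝ) (D : E n → E n), WB (ball (0 : E n) 1) f D → ∀ (y : E n) (s : ℝ),
      0 < s → ‖y‖ + s < 1 → ∫ x in closedBall y s, |f x - ⨍ z in closedBall y s, f z| ≤
      CP * s * ∫ x in closedBall y s, ‖D x‖)
    {f : E n → ℝ} {D : E n → E n} {M c : ℝ} (hM : 0 ≤ M) (h : WB (ball (0 : E n) 1) f D)
    (hMo : Mor (ball (0 : E n) 1) M D)
    (hc : ∫ x in closedBall (0 : E n) (31 / 32), |f x - c| ≤ CP * M) {y : E n} {s : ℝ}
    (hs : 0 < s) (hs1 : s < 1 / 32) (hy : ‖y‖ < 29 / 32) :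
    ∫ x in closedBall y s, |f x - c| ≤ 32 ^ n * CP * M * s ^ (n - 1) := by
  -- the scale
  have hx1 : (1 : ℝ) ≤ 1 / (16 * s) := by
    rw [le_div_iff₀ (by positivity)]
    linarith
  obtain ⟨k, hk1, hk2⟩ := exists_nat_pow_near hx1 (by norm_num : (1 : ℝ) < 2)
  have hk3 : 2 ^ k * s ≤ 1 / 16 := by
    rw [le_div_iff₀ (by positivity)] at hk1
    linarith
  have hk4 : 1 / 32 < 2 ^ k * s := by
    rw [div_lt_iff₀ (by positivity), pow_succ] at hk2
    linarith
  obtain ⟨t, ht⟩ : ∃ t : ℝ, t = 2 ^ k * s := ⟨_, rfl⟩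
  have ht0 : 0 < t := by rw [ht]; positivity
  have hts : t / 2 ^ k = s := by rw [ht]; field_simp
  rw [← ht] at hk3 hk4
  have hin : ∀ r : ℝ, 0 < r → r ≤ t → ‖y‖ + r < 1 := by
    intro r _ hr
    linarith
  have hsub1 : ∀ r : ℝ, r ≤ t → closedBall y r ⊆ ball (0 : E n) 1 := by
    intro r hr z hz
    rw [mem_closedBall, dist_eq_norm] at hz
    rw [mem_ball_zero_iff]
    have h5 : ‖z‖ ≤ ‖z - y‖ + ‖y‖ := by simpa using norm_add_le (z - y) y
    linarith
  have hsub2 : closedBall y t ⊆ closedBall (0 : E n) (31 / 32) := by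
    intro z hz
    rw [mem_closedBall, dist_eq_norm] at hz
    rw [mem_closedBall_zero_iff]
    have h5 : ‖z‖ ≤ ‖z - y‖ + ‖y‖ := by simpa using norm_add_le (z - y) y
    linarith
  have hfi := h.integrableOn
  -- oscillation
  have hosc : ∀ j : ℕ, ∫ x in closedBall y (t / 2 ^ j), |f x - ⨍ z in closedBall y (t / 2 ^ j), f z| ≤
      (CP * M * t ^ n) / (2 ^ n) ^ j := by
    intro j
    have hj0 : 0 < t / 2 ^ j := by positivity
    have hjt : t / 2 ^ j ≤ t := div_le_self ht0.le (one_le_pow₀ (by norm_num))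
    have h1 := hPn f D h y (t / 2 ^ j) hj0 (hin _ hj0 hjt)
    have h2 : ∫ x in closedBall y (t / 2 ^ j), ‖D x‖ ≤ M * (t / 2 ^ j) ^ (n - 1) := by
      rw [setIntegral_congr_set (closedBall_ae_ball y hj0.ne')]
      exact hMo y _ hj0 (ball_subset_closedBall.trans (hsub1 _ hjt))
    refine h1.trans ?_
    calc CP * (t / 2 ^ j) * ∫ x in closedBall y (t / 2 ^ j), ‖D x‖
        ≤ CP * (t / 2 ^ j) * (M * (t / 2 ^ j) ^ (n - 1)) := by gcongr
      _ = CP * M * ((t / 2 ^ j) ^ (n - 1) * (t / 2 ^ j)) := by ring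
      _ = CP * M * (t / 2 ^ j) ^ n := by rw [← pow_succ, Nat.sub_add_cancel hn]
      _ = _ := by
        rw [div_pow, ← pow_mul, ← pow_mul, mul_comm j n]
        ring
  have hmain := mob_iter (c := c) ht0 (hfi.mono_set (hsub1 t le_rfl)) hosc k
  rw [hts] at hmain
  have hi2 : ∫ x in closedBall y t, |f x - c| ≤ CP * M := by
    refine le_trans (setIntegral_mono_set ?_ ?_ hsub2.eventuallyLE) hc
    · have hsub3 : closedBall (0 : E n) (31 / 32) ⊆ ball (0 : E n) 1 :=
        closedBall_subset_ball (by norm_num)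
      exact ((hfi.mono_set hsub3).sub (integrableOn_const measure_closedBall_lt_top.ne)).abs
    · exact Eventually.of_forall fun x => abs_nonneg _
  -- conclusion
  have h2k : (0 : ℝ) < (2 ^ n) ^ k := by positivity
  have hkk : ((k : ℝ) + 1) ≤ 2 ^ k := by
    have := one_add_mul_le_pow (by norm_num : (-2 : ℝ) ≤ 1) k
    norm_num at this
    linarith
  have htn : t ^ n ≤ 1 := pow_le_one₀ ht0.le (by linarith)
  have hCM : 0 ≤ CP * M := by positivity
  have h6 : (2 ^ n) ^ k * ∫ x in closedBall y s, |f x - c| ≤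
      CP * M * (32 ^ n * t ^ n * (1 + k)) := by
    refine hmain.trans ?_
    have h7 : 1 ≤ 32 ^ n * t ^ n := by
      rw [← mul_pow]
      exact one_le_pow₀ (by linarith)
    have h8 : (2 : ℝ) ^ n ≤ 32 ^ n := pow_le_pow_left₀ (by norm_num) (by norm_num) n
    have h9 : (k : ℝ) * (2 ^ n * (CP * M * t ^ n)) ≤ (k : ℝ) * (32 ^ n * (CP * M * t ^ n)) := by
      gcongr
    have h10 : CP * M ≤ CP * M * (32 ^ n * t ^ n) := le_mul_of_one_le_right hCM h7
    calc (∫ x in closedBall y t, |f x - c|) + k * (2 ^ n * (CP * M * t ^ n))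
        ≤ CP * M * (32 ^ n * t ^ n) + k * (32 ^ n * (CP * M * t ^ n)) := by linarith
      _ = _ := by ring
  have h11 : t ^ n = (2 ^ n) ^ k * s ^ n := by
    rw [ht, mul_pow, ← pow_mul, ← pow_mul, mul_comm k n]
  have h12 : ∫ x in closedBall y s, |f x - c| ≤ CP * M * (32 ^ n * s ^ n * (1 + k)) := by
    refine le_of_mul_le_mul_left ?_ h2k
    refine h6.trans (le_of_eq ?_)
    rw [h11]
    ring
  refine h12.trans ?_
  have h13 : s * (1 + k) ≤ 1 := by
    have h14 : s * (1 + k) ≤ s * 2 ^ k := by gcongr; linarith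
    have h15 : s * 2 ^ k = t := by rw [ht]; ring
    linarith
  have h16 : s ^ n = s ^ (n - 1) * s := by rw [← pow_succ, Nat.sub_add_cancel hn]
  calc CP * M * (32 ^ n * s ^ n * (1 + k)) = 32 ^ n * CP * M * s ^ (n - 1) * (s * (1 + k)) := by
        rw [h16]; ring
    _ ≤ 32 ^ n * CP * M * s ^ (n - 1) * 1 := by gcongr
    _ = _ := by ring

theorem pf_MOB (hS : T_SMW) (hE : T_EXT) (hP : T_POI) : T_MOB := by
  intro n ζ B hn hB hζ
  obtain ⟨CP, hCP, hPn⟩ := hP n
  refine ⟨32 ^ n * (1 + B * CP), by positivity, ?_⟩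
  intro f D M hM h hMo
  obtain ⟨c, hcd⟩ : ∃ c : ℝ, c = ⨍ z in closedBall (0 : E n) (31 / 32), f z := ⟨_, rfl⟩
  refine ⟨c, cut_wc hS hE hζ h c, ?_⟩
  have hD1 : ∫ x in ball (0 : E n) 1, ‖D x‖ ≤ M := by
    have := hMo 0 1 one_pos subset_rfl
    simpa using this
  have hDn := h.integrableOn_norm
  have hfi := h.integrableOn
  have hc : ∫ x in closedBall (0 : E n) (31 / 32), |f x - c| ≤ CP * M := by
    have h1 := hPn f D h 0 (31 / 32) (by norm_num) (by rw [norm_zero]; norm_num)
    rw [← hcd] at h1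
    have h2 : ∫ x in closedBall (0 : E n) (31 / 32), ‖D x‖ ≤ M := by
      refine le_trans (setIntegral_mono_set hDn ?_
        (closedBall_subset_ball (by norm_num : (31 / 32 : ℝ) < 1)).eventuallyLE) hD1
      exact Eventually.of_forall fun x => norm_nonneg _
    refine h1.trans ?_
    calc CP * (31 / 32) * ∫ x in closedBall (0 : E n) (31 / 32), ‖D x‖
        ≤ CP * 1 * M := by gcongr; norm_num
      _ = _ := by ring
  have hcabs : IntegrableOn (fun x => |f x - c|) (ball (0 : E n) 1) :=
    (hfi.sub (integrableOn_const measure_ball_lt_top.ne)).abs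
  -- pointwise bound
  obtain ⟨b, hb⟩ : ∃ b : E n → E n, b = dm ζ (fun x => f x - c) D := ⟨_, rfl⟩
  rw [← hb]
  have hoff : ∀ x, x ∉ closedBall (0 : E n) (7 / 8) → b x = 0 := by
    intro x hx
    obtain ⟨h1, h2⟩ := hζ.off hx
    simp [hb, dm, h1, h2]
  have hbd : ∀ x, ‖b x‖ ≤ ‖D x‖ + B * |f x - c| := by
    intro x
    rw [hb]
    exact norm_dm_le hζ _ D x
  have key : ∀ (y : E n) (s : ℝ), ∫ x in ball y s, ‖b x‖ ≤
      ∫ x in ball y s ∩ closedBall (0 : E n) (7 / 8), (‖D x‖ + B * |f x - c|) := by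
    intro y s
    have h1 : ∫ x in ball y s, ‖b x‖ = ∫ x in ball y s ∩ closedBall (0 : E n) (7 / 8), ‖b x‖ := by
      refine setIntegral_eq_of_subset_of_forall_diff_eq_zero measurableSet_ball
        inter_subset_left ?_
      intro x hx
      have h2 : x ∉ closedBall (0 : E n) (7 / 8) := fun h3 => hx.2 ⟨hx.1, h3⟩
      rw [hoff x h2, norm_zero]
    rw [h1]
    have h4 : ball y s ∩ closedBall (0 : E n) (7 / 8) ⊆ ball (0 : E n) 1 :=
      inter_subset_right.trans (closedBall_subset_ball (by norm_num))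
    have h5 : IntegrableOn (fun x => ‖D x‖ + B * |f x - c|)
        (ball y s ∩ closedBall (0 : E n) (7 / 8)) :=
      (hDn.mono_set h4).add ((hcabs.mono_set h4).const_mul B)
    refine integral_mono_of_nonneg (Eventually.of_forall fun x => norm_nonneg _) h5 ?_
    exact Eventually.of_forall fun x => hbd x
  intro y s hs _
  have h32 : (1 : ℝ) ≤ 32 ^ n := one_le_pow₀ (by norm_num)
  have hBC : 0 ≤ B * CP := by positivity
  rcases le_or_gt (1 / 32) s with h1 | h1
  · -- large balls
    have h2 : ∫ x in ball y s ∩ closedBall (0 : E n) (7 / 8), (‖D x‖ + B * |f x - c|) ≤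
        M + B * (CP * M) := by
      have h4 : ball y s ∩ closedBall (0 : E n) (7 / 8) ⊆ closedBall (0 : E n) (31 / 32) :=
        inter_subset_right.trans (closedBall_subset_closedBall (by norm_num))
      have h5 : closedBall (0 : E n) (31 / 32) ⊆ ball (0 : E n) 1 :=
        closedBall_subset_ball (by norm_num)
      have hi : IntegrableOn (fun x => ‖D x‖ + B * |f x - c|) (closedBall (0 : E n) (31 / 32)) :=
        (hDn.mono_set h5).add ((hcabs.mono_set h5).const_mul B)
      calc ∫ x in ball y s ∩ closedBall (0 : E n) (7 / 8), (‖D x‖ + B * |f x - c|)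
          ≤ ∫ x in closedBall (0 : E n) (31 / 32), (‖D x‖ + B * |f x - c|) :=
            setIntegral_mono_set hi (Eventually.of_forall fun x => by
              change 0 ≤ ‖D x‖ + B * |f x - c|
              positivity) h4.eventuallyLE
        _ = (∫ x in closedBall (0 : E n) (31 / 32), ‖D x‖) +
            B * ∫ x in closedBall (0 : E n) (31 / 32), |f x - c| := by
            rw [integral_add (hDn.mono_set h5) ((hcabs.mono_set h5).const_mul B),
              integral_const_mul]
        _ ≤ (∫ x in ball (0 : E n) 1, ‖D x‖) + B * (CP * M) := by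
            gcongr
            · exact Eventually.of_forall fun x => norm_nonneg _
        _ ≤ _ := by linarith
    have h6 : (1 : ℝ) ≤ 32 ^ (n - 1) * s ^ (n - 1) := by
      rw [← mul_pow]
      exact one_le_pow₀ (by linarith)
    have h7 : (32 : ℝ) ^ (n - 1) ≤ 32 ^ n := pow_le_pow_right₀ (by norm_num) (by omega)
    calc ∫ x in ball y s, ‖b x‖ ≤ M + B * (CP * M) := (key y s).trans h2
      _ = ((1 + B * CP) * M) * 1 := by ring
      _ ≤ ((1 + B * CP) * M) * (32 ^ (n - 1) * s ^ (n - 1)) := by gcongr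
      _ ≤ ((1 + B * CP) * M) * (32 ^ n * s ^ (n - 1)) := by gcongr
      _ = _ := by ring
  · -- small balls
    rcases (ball y s ∩ closedBall (0 : E n) (7 / 8)).eq_empty_or_nonempty with h2 | ⟨z, hz1, hz2⟩
    · have h3 := key y s
      rw [h2] at h3
      simp only [Measure.restrict_empty, integral_zero_measure] at h3
      refine h3.trans (by positivity)
    · have hy : ‖y‖ < 29 / 32 := by
        rw [mem_ball, dist_eq_norm] at hz1
        rw [mem_closedBall_zero_iff] at hz2
        have h5 : ‖y‖ ≤ ‖z‖ + ‖z - y‖ := by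
          have := norm_sub_le z (z - y)
          simpa using this
        linarith
      have hsub : closedBall y s ⊆ ball (0 : E n) 1 := by
        intro w hw
        rw [mem_closedBall, dist_eq_norm] at hw
        rw [mem_ball_zero_iff]
        have h5 : ‖w‖ ≤ ‖w - y‖ + ‖y‖ := by simpa using norm_add_le (w - y) y
        linarith
      have hsm := mob_small hn hCP hPn hM h hMo hc hs h1 hy
      have hDs : ∫ x in closedBall y s, ‖D x‖ ≤ M * s ^ (n - 1) := by
        rw [setIntegral_congr_set (closedBall_ae_ball y hs.ne')]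
        exact hMo y s hs (ball_subset_closedBall.trans hsub)
      have hi : IntegrableOn (fun x => ‖D x‖ + B * |f x - c|) (closedBall y s) :=
        (hDn.mono_set hsub).add ((hcabs.mono_set hsub).const_mul B)
      calc ∫ x in ball y s, ‖b x‖
          ≤ ∫ x in ball y s ∩ closedBall (0 : E n) (7 / 8), (‖D x‖ + B * |f x - c|) := key y s
        _ ≤ ∫ x in closedBall y s, (‖D x‖ + B * |f x - c|) :=
            setIntegral_mono_set hi (Eventually.of_forall fun x => by
              change 0 ≤ ‖D x‖ + B * |f x - c|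
              positivity) (inter_subset_left.trans ball_subset_closedBall).eventuallyLE
        _ = (∫ x in closedBall y s, ‖D x‖) + B * ∫ x in closedBall y s, |f x - c| := by
            rw [integral_add (hDn.mono_set hsub) ((hcabs.mono_set hsub).const_mul B),
              integral_const_mul]
        _ ≤ M * s ^ (n - 1) + B * (32 ^ n * CP * M * s ^ (n - 1)) := by gcongr
        _ = (1 + B * CP * 32 ^ n) * (M * s ^ (n - 1)) := by ring
        _ ≤ (32 ^ n + B * CP * 32 ^ n) * (M * s ^ (n - 1)) := by gcongr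
        _ = _ := by ring

end

end Pool.Agent.H48.RG
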