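import Pool.Agent.H87.SN.Defs

/-! Partial regularity of stationary harmonic maps (MP_2697e3_an), part D (decay of the Morrey norm of the
gradient): definitions. -/

namespace Pool.Agent.H48.RG

open MeasureTheory Metric Set Filter Topology Pool.Agent.H87.SN
open scoped ContDiff RealInnerProductSpace ENNReal

noncomputable section

/-- Test functions in the open set `U`. -/
def Tst {n : ℕ} (U : Set (E n)) (φ : E n → ℝ) : Prop :=
  ContDiff ℝ ∞ φ ∧ HasCompactSupport φ ∧ tsupport φ ⊆ U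

/-- The vector field `D` is the weak gradient of the function `f` on `U`. -/
def WG {n : ℕ} (U : Set (E n)) (f : E n → ℝ) (D : E n → E n) : Prop :=
  ∀ φ : E n → ℝ, Tst U φ → ∀ v : E n, ∫ x, fderiv ℝ φ x v * f x = - ∫ x, φ x * ⟪D x, v⟫

/-- Divergence free vector fields on the whole space. -/
def DF {n : ℕ} (G : E n → E n) : Prop :=
  ∀ φ : E n → ℝ, Tst univ φ → ∫ x, fderiv ℝ φ x (G x) = 0

/-- Bounded functions with square integrable weak gradient on `U`. -/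
structure WB {n : ℕ} (U : Set (E n)) (f : E n → ℝ) (D : E n → E n) : Prop where
  ms : AEStronglyMeasurable f (volume.restrict U)
  bd : ∃ B : ℝ, ∀ᵐ x ∂(volume.restrict U), |f x| ≤ B
  d2 : MemLp D 2 (volume.restrict U)
  wg : WG U f D

/-- Bounded functions with square integrable weak gradient on the whole space, which vanish off the ball
of radius `ρ`. -/
structure WC {n : ℕ} (ρ : ℝ) (f : E n → ℝ) (D : E n → E n) : Prop where
  wb : WB univ f D
  off : ∀ x, x ∉ closedBall (0 : E n) ρ → f x = 0 ∧ D x = 0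

/-- The system `-Δu = Ω·∇u` with antisymmetric `Ω`, `|Ω| ≤ K |∇u|`, on `U`. -/
structure Sys {n m : ℕ} (K : ℝ) (U : Set (E n)) (u : Fin m → E n → ℝ) (D : Fin m → E n → E n)
    (Om : Fin m → Fin m → E n → E n) : Prop where
  wb : ∀ k, WB U (u k) (D k)
  ms : ∀ i j, AEStronglyMeasurable (Om i j) (volume.restrict U)
  anti : ∀ i j x, Om i j x = - Om j i x
  le : ∀ i j, ∀ᵐ x ∂(volume.restrict U), ‖Om i j x‖ ≤ K * ∑ k, ‖D k x‖
  eq : ∀ i φ, Tst U φ → ∫ x, fderiv ℝ φ x (D i x) = ∫ x, φ x * ∑ j, ⟪Om i j x, D j x⟫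

/-- The Morrey norm of the gradient on `U` is at most `M`. -/
def Mor {n : ℕ} (U : Set (E n)) (M : ℝ) (D : E n → E n) : Prop :=
  ∀ (y : E n) (s : ℝ), 0 < s → ball y s ⊆ U → ∫ x in ball y s, ‖D x‖ ≤ M * s ^ (n - 1)

/-- The matrix `P^T ∇P + P^T Ω P`. -/
def EE {n m : ℕ} (P : Fin m → Fin m → E n → ℝ) (DP Om : Fin m → Fin m → E n → E n) (i j : Fin m)
    (x : E n) : E n :=
  ∑ k, P k i x • DP k j x + ∑ k, ∑ l, (P k i x * P l j x) • Om k l x

/-- The gauge: orthogonal matrices `P`, with weak gradient `DP`, on the unit ball, for which the matrix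
`P^T ∇P + P^T Ω P`, extended by zero, is divergence free, with the bounds of the energy. -/
structure Gau {n m : ℕ} (Om : Fin m → Fin m → E n → E n) (P : Fin m → Fin m → E n → ℝ)
    (DP : Fin m → Fin m → E n → E n) : Prop where
  wb : ∀ i j, WB (ball 0 1) (P i j) (DP i j)
  orth : ∀ᵐ x ∂(volume.restrict (ball (0 : E n) 1)), ∀ i j,
    ∑ k, P k i x * P k j x = if i = j then 1 else 0
  df : ∀ i j, ∀ φ : E n → ℝ, Tst univ φ → ∫ x in ball (0 : E n) 1, fderiv ℝ φ x (EE P DP Om i j x) = 0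
  le1 : ∑ i, ∑ j, ∫ x in ball (0 : E n) 1, ‖EE P DP Om i j x‖ ^ 2 ≤
    ∑ i, ∑ j, ∫ x in ball (0 : E n) 1, ‖Om i j x‖ ^ 2
  le2 : ∑ i, ∑ j, ∫ x in ball (0 : E n) 1, ‖DP i j x‖ ^ 2 ≤
    4 * ∑ i, ∑ j, ∫ x in ball (0 : E n) 1, ‖Om i j x‖ ^ 2

/-- Part B: the gauge exists. -/
def T_GAU : Prop := ∀ (n m : ℕ), 1 ≤ n → ∀ Om : Fin m → Fin m → E n → E n,
    (∀ i j, MemLp (Om i j) 2 (volume.restrict (ball (0 : E n) 1))) →
    (∀ i j x, Om i j x = - Om j i x) → ∃ P DP, Gau Om P DP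

/-- Part C: the trilinear estimate. -/
def T_TRI : Prop := ∀ n : ℕ, 1 ≤ n → ∃ C : ℝ, 0 ≤ C ∧
    ∀ (b g : E n → ℝ) (Db G Dg : E n → E n) (M : ℝ), 0 ≤ M → WC 1 b Db → Mor univ M Db →
    MemLp G 2 volume → (∀ x, x ∉ closedBall (0 : E n) 1 → G x = 0) → DF G → WC 1 g Dg →
    |∫ x, b x * ⟪G x, Dg x⟫| ≤
      C * M * Real.sqrt (∫ x, ‖G x‖ ^ 2) * Real.sqrt (∫ x, ‖Dg x‖ ^ 2)

end

end Pool.Agent.H48.RG
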