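import Pool.Agent.H48.RG.Targets

/-! Part D of the regularity theorem, row SCL: decay on all balls, by a zoom. -/

set_option autoImplicit false

namespace Pool.Agent.H48.RG

open MeasureTheory Metric Set Filter Topology Pool.Agent.H87.SN
open scoped ContDiff RealInnerProductSpace ENNReal

noncomputable section

/-- The zoom. -/
def zz {n : ℕ} (y : E n) (r : ℝ) (z : E n) : E n := y + r • z

/-- The inverse of the zoom. -/
def zinv {n : ℕ} (y : E n) {r : ℝ} (hr : r ≠ 0) : E n ≃ₜ E n :=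
  (Homeomorph.addLeft (-y)).trans (Homeomorph.smulOfNeZero r⁻¹ (inv_ne_zero hr))

theorem zinv_apply {n : ℕ} (y : E n) {r : ℝ} (hr : r ≠ 0) (x : E n) :
    zinv y hr x = r⁻¹ • (-y + x) := rfl

theorem zinv_zz {n : ℕ} (y : E n) {r : ℝ} (hr : r ≠ 0) (z : E n) : zinv y hr (zz y r z) = z := by
  rw [zinv_apply, zz, neg_add_cancel_left, smul_smul, inv_mul_cancel₀ hr, one_smul]

theorem zz_zinv {n : ℕ} (y : E n) {r : ℝ} (hr : r ≠ 0) (x : E n) : zz y r (zinv y hr x) = x := by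
  rw [zinv_apply, zz, smul_smul, mul_inv_cancel₀ hr, one_smul, add_neg_cancel_left]

theorem zz_emb {n : ℕ} (y : E n) {r : ℝ} (hr : r ≠ 0) : MeasurableEmbedding (zz y r) := by
  have h1 : zz y r = (zinv y hr).symm := by
    funext z
    rw [Homeomorph.eq_symm_apply, zinv_zz]
  rw [h1]
  exact (zinv y hr).symm.measurableEmbedding

theorem zz_pre {n : ℕ} (y z : E n) {r s : ℝ} (hr : 0 < r) :
    zz y r ⁻¹' ball (zz y r z) (r * s) = ball z s := by
  ext w
  rw [mem_preimage, mem_ball, mem_ball, dist_eq_norm, dist_eq_norm]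
  have h1 : zz y r w - zz y r z = r • (w - z) := by
    unfold zz
    rw [smul_sub]
    abel
  rw [h1, norm_smul, Real.norm_eq_abs, abs_of_pos hr]
  exact mul_lt_mul_iff_right₀ hr

theorem zz_map {n : ℕ} (y : E n) {r : ℝ} (hr : 0 < r) :
    Measure.map (zz y r) (volume : Measure (E n)) = ENNReal.ofReal ((r ^ n)⁻¹) • volume := by
  have h1 : zz y r = (fun x => y + x) ∘ (fun z => r • z) := rfl
  rw [h1, ← Measure.map_map (measurable_const_add y) (measurable_const_smul r),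
    Measure.map_addHaar_smul volume hr.ne', Measure.map_smul, map_add_left_eq_self,
    finrank_euclideanSpace_fin, abs_of_pos (by positivity)]

theorem zz_map_restrict {n : ℕ} (y z : E n) {r : ℝ} (s : ℝ) (hr : 0 < r) :
    Measure.map (zz y r) (volume.restrict (ball z s)) =
      ENNReal.ofReal ((r ^ n)⁻¹) • volume.restrict (ball (zz y r z) (r * s)) := by
  rw [← zz_pre y z hr (s := s), ← (zz_emb y hr.ne').restrict_map, zz_map y hr,
    Measure.restrict_smul]

theorem zz_int {n : ℕ} {F : Type*} [NormedAddCommGroup F] [NormedSpace ℝ F] (y : E n) {r : ℝ}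
    (hr : 0 < r) (h : E n → F) : ∫ z, h (zz y r z) = (r ^ n)⁻¹ • ∫ x, h x := by
  rw [← (zz_emb y hr.ne').integral_map (μ := volume) h, zz_map y hr, integral_smul_measure,
    ENNReal.toReal_ofReal (by positivity)]

theorem zz_int_ball {n : ℕ} {F : Type*} [NormedAddCommGroup F] [NormedSpace ℝ F] (y z : E n) {r : ℝ}
    (s : ℝ) (hr : 0 < r) (h : E n → F) :
    ∫ w in ball z s, h (zz y r w) = (r ^ n)⁻¹ • ∫ x in ball (zz y r z) (r * s), h x := by
  rw [← (zz_emb y hr.ne').integral_map (μ := volume.restrict (ball z s)) h,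
    zz_map_restrict y z s hr, integral_smul_measure, ENNReal.toReal_ofReal (by positivity)]

theorem zz_ball {n : ℕ} (y : E n) {r : ℝ} (hr : 0 < r) :
    Measure.map (zz y r) (volume.restrict (ball (0 : E n) 1)) =
      ENNReal.ofReal ((r ^ n)⁻¹) • volume.restrict (ball y r) := by
  have h := zz_map_restrict y 0 1 hr
  have h1 : zz y r 0 = y := by simp [zz]
  rwa [h1, mul_one] at h

theorem zz_ae {n : ℕ} {y : E n} {r : ℝ} (hr : 0 < r) {p : E n → Prop}
    (h : ∀ᵐ x ∂(volume.restrict (ball y r)), p x) :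
    ∀ᵐ z ∂(volume.restrict (ball (0 : E n) 1)), p (zz y r z) := by
  refine ae_of_ae_map (zz_emb y hr.ne').measurable.aemeasurable ?_
  rw [zz_ball y hr]
  exact Measure.ae_smul_measure h _

theorem zz_meas {n : ℕ} {F : Type*} [NormedAddCommGroup F] {y : E n} {r : ℝ} (hr : 0 < r)
    {f : E n → F} (h : AEStronglyMeasurable f (volume.restrict (ball y r))) :
    AEStronglyMeasurable (fun z => f (zz y r z)) (volume.restrict (ball (0 : E n) 1)) := by
  refine AEStronglyMeasurable.comp_measurable (f := zz y r) (g := f) ?_ (zz_emb y hr.ne').measurable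
  rw [zz_ball y hr]
  exact h.mono_ac Measure.smul_absolutelyContinuous

/-- The test function on the large ball. -/
theorem zz_tst {n : ℕ} {y : E n} {r : ℝ} (hr : 0 < r) {φ : E n → ℝ} (h : Tst (ball 0 1) φ) :
    Tst (ball y r) (fun x => φ (zinv y hr.ne' x)) := by
  obtain ⟨h1, h2, h3⟩ := h
  refine ⟨?_, h2.comp_homeomorph (zinv y hr.ne'), ?_⟩
  · have h4 : ContDiff ℝ ∞ (fun x : E n => r⁻¹ • (-y + x)) :=
      (contDiff_const.add contDiff_id).const_smul _
    exact h1.comp h4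
  · have h5 : tsupport (φ ∘ (zinv y hr.ne')) = (zinv y hr.ne') ⁻¹' tsupport φ :=
      tsupport_comp_eq_preimage φ (zinv y hr.ne')
    change tsupport (φ ∘ (zinv y hr.ne')) ⊆ ball y r
    rw [h5]
    intro x hx
    have h6 := h3 hx
    have h7 := zz_pre y 0 hr (s := 1)
    have h8 : zz y r 0 = y := by simp [zz]
    rw [h8, mul_one] at h7
    rw [← h7] at h6
    have h9 : zz y r (zinv y hr.ne' x) ∈ ball y r := h6
    rwa [zz_zinv] at h9

theorem zz_fderiv {n : ℕ} {y : E n} {r : ℝ} (hr : 0 < r) {φ : E n → ℝ} (h : Tst (ball 0 1) φ)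
    (z v : E n) :
    fderiv ℝ φ z v = r * fderiv ℝ (fun x => φ (zinv y hr.ne' x)) (zz y r z) v := by
  obtain ⟨ψ, hψ⟩ : ∃ ψ : E n → ℝ, ψ = fun x => φ (zinv y hr.ne' x) := ⟨_, rfl⟩
  have hs := (zz_tst (y := y) hr h).1
  rw [← hψ] at hs ⊢
  have h1 : φ = fun w => ψ (zz y r w) := by
    funext w
    rw [hψ]
    simp only
    rw [zinv_zz]
  have h2 : HasFDerivAt (zz y r) (r • ContinuousLinearMap.id ℝ (E n)) z := by
    have h3 : HasFDerivAt (fun w : E n => r • w) (r • ContinuousLinearMap.id ℝ (E n)) z :=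
      (hasFDerivAt_id z).const_smul r
    exact h3.const_add y
  have h4 : HasFDerivAt ψ (fderiv ℝ ψ (zz y r z)) (zz y r z) :=
    (hs.differentiable (by simp) _).hasFDerivAt
  have h5 := (h4.comp z h2).fderiv
  rw [h1]
  change fderiv ℝ (ψ ∘ zz y r) z v = _
  rw [h5]
  simp

theorem zz_WB {n : ℕ} {y : E n} {r : ℝ} (hr : 0 < r) {f : E n → ℝ} {D : E n → E n}
    (h : WB (ball y r) f D) :
    WB (ball (0 : E n) 1) (fun z => f (zz y r z)) (fun z => r • D (zz y r z)) := by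
  obtain ⟨B, hB⟩ := h.bd
  refine ⟨zz_meas hr h.ms, ⟨B, zz_ae hr hB⟩, ?_, ?_⟩
  · refine MemLp.const_smul ?_ r
    refine MemLp.comp_of_map (f := zz y r) (g := D) ?_ (zz_emb y hr.ne').measurable.aemeasurable
    rw [zz_ball y hr]
    exact h.d2.smul_measure ENNReal.ofReal_ne_top
  · intro φ hφ v
    have h1 := h.wg _ (zz_tst hr hφ) v
    obtain ⟨ψ, hψ⟩ : ∃ ψ : E n → ℝ, ψ = fun x => φ (zinv y hr.ne' x) := ⟨_, rfl⟩
    have hval : ∀ z, φ z = ψ (zz y r z) := by
      intro z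
      rw [hψ]
      simp only
      rw [zinv_zz]
    rw [← hψ] at h1
    have e1 : ∀ z, fderiv ℝ φ z v * f (zz y r z) =
        (fun x => r * (fderiv ℝ ψ x v * f x)) (zz y r z) := by
      intro z
      rw [zz_fderiv hr hφ z v, ← hψ]
      ring
    have e2 : ∀ z, φ z * ⟪r • D (zz y r z), v⟫ = (fun x => r * (ψ x * ⟪D x, v⟫)) (zz y r z) := by
      intro z
      rw [hval z, real_inner_smul_left]
      ring
    have e3 : ∫ z, fderiv ℝ φ z v * f (zz y r z) =
        (r ^ n)⁻¹ • ∫ x, r * (fderiv ℝ ψ x v * f x) := by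
      rw [← zz_int y hr (fun x => r * (fderiv ℝ ψ x v * f x))]
      exact integral_congr_ae (Eventually.of_forall e1)
    have e4 : ∫ z, φ z * ⟪r • D (zz y r z), v⟫ = (r ^ n)⁻¹ • ∫ x, r * (ψ x * ⟪D x, v⟫) := by
      rw [← zz_int y hr (fun x => r * (ψ x * ⟪D x, v⟫))]
      exact integral_congr_ae (Eventually.of_forall e2)
    rw [e3, e4, integral_const_mul, integral_const_mul]
    have h1' : ∫ x, fderiv ℝ ψ x v * f x = - ∫ x, ψ x * ⟪D x, v⟫ := by
      rw [h1, hψ]
    rw [h1']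
    simp only [smul_eq_mul]
    ring

theorem zz_Sys {n m : ℕ} {K : ℝ} {y : E n} {r : ℝ} (hr : 0 < r) {u : Fin m → E n → ℝ}
    {D : Fin m → E n → E n} {Om : Fin m → Fin m → E n → E n} (h : Sys K (ball y r) u D Om) :
    Sys K (ball (0 : E n) 1) (fun k z => u k (zz y r z)) (fun k z => r • D k (zz y r z))
      (fun i j z => r • Om i j (zz y r z)) := by
  refine ⟨fun k => zz_WB hr (h.wb k), fun i j => (zz_meas hr (h.ms i j)).const_smul r, ?_, ?_, ?_⟩
  · intro i j z
    rw [h.anti i j, smul_neg]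
  · intro i j
    filter_upwards [zz_ae hr (h.le i j)] with z hz
    simp only [norm_smul, Real.norm_eq_abs, abs_of_pos hr]
    rw [← Finset.mul_sum]
    calc r * ‖Om i j (zz y r z)‖ ≤ r * (K * ∑ k, ‖D k (zz y r z)‖) := by gcongr
      _ = _ := by ring
  · intro i φ hφ
    have h1 := h.eq i _ (zz_tst hr hφ)
    obtain ⟨ψ, hψ⟩ : ∃ ψ : E n → ℝ, ψ = fun x => φ (zinv y hr.ne' x) := ⟨_, rfl⟩
    have hval : ∀ z, φ z = ψ (zz y r z) := by
      intro z
      rw [hψ]
      simp only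
      rw [zinv_zz]
    rw [← hψ] at h1
    have e1 : ∀ z, fderiv ℝ φ z (r • D i (zz y r z)) =
        (fun x => r ^ 2 * fderiv ℝ ψ x (D i x)) (zz y r z) := by
      intro z
      rw [zz_fderiv hr hφ z _, ← hψ, map_smul]
      simp only [smul_eq_mul]
      ring
    have e2 : ∀ z, φ z * ∑ j, ⟪r • Om i j (zz y r z), r • D j (zz y r z)⟫ =
        (fun x => r ^ 2 * (ψ x * ∑ j, ⟪Om i j x, D j x⟫)) (zz y r z) := by
      intro z
      rw [hval z]
      simp only [real_inner_smul_left, real_inner_smul_right, ← Finset.mul_sum]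
      ring
    have e3 : ∫ z, fderiv ℝ φ z (r • D i (zz y r z)) =
        (r ^ n)⁻¹ • ∫ x, r ^ 2 * fderiv ℝ ψ x (D i x) := by
      rw [← zz_int y hr (fun x => r ^ 2 * fderiv ℝ ψ x (D i x))]
      exact integral_congr_ae (Eventually.of_forall e1)
    have e4 : ∫ z, φ z * ∑ j, ⟪r • Om i j (zz y r z), r • D j (zz y r z)⟫ =
        (r ^ n)⁻¹ • ∫ x, r ^ 2 * (ψ x * ∑ j, ⟪Om i j x, D j x⟫) := by
      rw [← zz_int y hr (fun x => r ^ 2 * (ψ x * ∑ j, ⟪Om i j x, D j x⟫))]
      exact integral_congr_ae (Eventually.of_forall e2)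
    have h1' : ∫ x, fderiv ℝ ψ x (D i x) = ∫ x, ψ x * ∑ j, ⟪Om i j x, D j x⟫ := by
      rw [h1, hψ]
    rw [e3, e4, integral_const_mul, integral_const_mul, h1']

theorem zz_norm_int {n : ℕ} (y z : E n) {r : ℝ} (s : ℝ) (hr : 0 < r) (D : E n → E n) :
    ∫ w in ball z s, ‖r • D (zz y r w)‖ = r * ((r ^ n)⁻¹ * ∫ x in ball (zz y r z) (r * s), ‖D x‖) := by
  have h1 : ∀ w, ‖r • D (zz y r w)‖ = r * (fun x => ‖D x‖) (zz y r w) := by
    intro w
    rw [norm_smul, Real.norm_eq_abs, abs_of_pos hr]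
  have h2 := integral_congr_ae (μ := volume.restrict (ball z s)) (Eventually.of_forall h1)
  rw [h2, integral_const_mul, zz_int_ball y z s hr (fun x => ‖D x‖), smul_eq_mul]

theorem pf_SCL (hD : T_DEC) : T_SCL := by
  intro n m K hn hK
  obtain ⟨C, hC, hCD⟩ := hD n m K hn hK
  refine ⟨C, hC, fun θ hθ hθ4 => ?_⟩
  obtain ⟨ε, hε, h⟩ := hCD θ hθ hθ4
  refine ⟨ε, hε, ?_⟩
  intro y r u D Om M hr hS hM hMo hE k
  have hzy : zz y r 0 = y := by simp [zz]
  have hr1 : r * r ^ (n - 1) = r ^ n := by rw [← pow_succ', Nat.sub_add_cancel hn]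
  have hrn : (0 : ℝ) < r ^ n := by positivity
  have hMor : ∀ k, Mor (ball (0 : E n) 1) M (fun z => r • D k (zz y r z)) := by
    intro k z s hs hsub
    rw [zz_norm_int y z s hr]
    have h1 : ball (zz y r z) (r * s) ⊆ ball y r := by
      intro x hx
      have h2 : zinv y hr.ne' x ∈ ball z s := by
        rw [← zz_pre y z hr, mem_preimage, zz_zinv]
        exact hx
      have h3 := hsub h2
      have h4 := zz_pre y 0 hr (s := 1)
      rw [hzy, mul_one] at h4
      rw [← h4, mem_preimage, zz_zinv] at h3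
      exact h3
    have h2 := hMo k (zz y r z) (r * s) (by positivity) h1
    calc r * ((r ^ n)⁻¹ * ∫ x in ball (zz y r z) (r * s), ‖D k x‖)
        ≤ r * ((r ^ n)⁻¹ * (M * (r * s) ^ (n - 1))) := by gcongr
      _ = (r ^ n)⁻¹ * (r * r ^ (n - 1)) * (M * s ^ (n - 1)) := by rw [mul_pow]; ring
      _ = M * s ^ (n - 1) := by rw [hr1, inv_mul_cancel₀ hrn.ne', one_mul]
  have hEn : ∑ k, ∫ z in ball (0 : E n) 1, ‖r • D k (zz y r z)‖ ^ 2 ≤ ε := by
    have h1 : ∀ k, ∫ z in ball (0 : E n) 1, ‖r • D k (zz y r z)‖ ^ 2 =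
        r ^ 2 * (r ^ n)⁻¹ * ∫ x in ball y r, ‖D k x‖ ^ 2 := by
      intro k
      have h2 : ∀ w, ‖r • D k (zz y r w)‖ ^ 2 = r ^ 2 * (fun x => ‖D k x‖ ^ 2) (zz y r w) := by
        intro w
        rw [norm_smul, Real.norm_eq_abs, abs_of_pos hr, mul_pow]
      have h3 := integral_congr_ae (μ := volume.restrict (ball (0 : E n) 1))
        (Eventually.of_forall h2)
      rw [h3, integral_const_mul, zz_int_ball y 0 1 hr (fun x => ‖D k x‖ ^ 2), smul_eq_mul, hzy,
        mul_one]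
      ring
    simp_rw [h1]
    rw [← Finset.mul_sum]
    calc r ^ 2 * (r ^ n)⁻¹ * ∑ k, ∫ x in ball y r, ‖D k x‖ ^ 2
        ≤ r ^ 2 * (r ^ n)⁻¹ * (ε * (r ^ n / r ^ 2)) := by gcongr
      _ = ε := by field_simp
  have hfin := h _ _ _ M (zz_Sys hr hS) hM hMor hEn k
  rw [zz_norm_int y 0 θ hr, hzy] at hfin
  have h5 : ∫ x in ball y (θ * r), ‖D k x‖ =
      r ^ (n - 1) * (r * ((r ^ n)⁻¹ * ∫ x in ball y (r * θ), ‖D k x‖)) := by
    rw [mul_comm θ r, ← mul_assoc, ← mul_assoc, mul_comm (r ^ (n - 1)) r, hr1,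
      mul_inv_cancel₀ hrn.ne', one_mul]
  rw [h5]
  calc r ^ (n - 1) * (r * ((r ^ n)⁻¹ * ∫ x in ball y (r * θ), ‖D k x‖))
      ≤ r ^ (n - 1) * (C * θ ^ n * M) := by gcongr
    _ = _ := by ring

end

end Pool.Agent.H48.RG
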