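import Pool.Agent.H48.RG.Targets

/-! Part D of the regularity theorem, row WWP: algebra and integrability in the gauge. -/

set_option autoImplicit false

namespace Pool.Agent.H48.RG

open MeasureTheory Metric Set Filter Topology Pool.Agent.H87.SN
open scoped ContDiff RealInnerProductSpace ENNReal

noncomputable section

theorem orth_symm {m : ℕ} {p : Fin m → Fin m → ℝ}
    (h : ∀ i j, ∑ k, p k i * p k j = if i = j then 1 else 0) (k l : Fin m) :
    ∑ j, p k j * p l j = if k = l then 1 else 0 := by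
  obtain ⟨A, hA⟩ : ∃ A : Matrix (Fin m) (Fin m) ℝ, A = Matrix.of p := ⟨_, rfl⟩
  have h1 : A.transpose * A = 1 := by
    ext i j
    rw [Matrix.mul_apply, Matrix.one_apply, ← h i j]
    simp [hA, Matrix.transpose_apply]
  have h2 : A * A.transpose = 1 := by
    exact mul_eq_one_comm.1 h1
  have h3 := congrFun (congrFun h2 k) l
  rw [Matrix.mul_apply, Matrix.one_apply] at h3
  rw [← h3]
  simp [hA, Matrix.transpose_apply]

theorem orth_le {m : ℕ} {p : Fin m → Fin m → ℝ}
    (h : ∀ i j, ∑ k, p k i * p k j = if i = j then 1 else 0) (i j : Fin m) : |p i j| ≤ 1 := by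
  have h1 := h j j
  rw [if_pos rfl] at h1
  have h2 : p i j * p i j ≤ ∑ k, p k j * p k j :=
    Finset.single_le_sum (f := fun k => p k j * p k j) (fun k _ => mul_self_nonneg _)
      (Finset.mem_univ i)
  rw [h1] at h2
  exact abs_le_one_iff_mul_self_le_one.2 h2

theorem ww_inv {n m : ℕ} {P : Fin m → Fin m → E n → ℝ} (D : Fin m → E n → E n) {x : E n}
    (h : ∀ i j, ∑ k, P k i x * P k j x = if i = j then 1 else 0) (k : Fin m) :
    D k x = ∑ j, P k j x • ww P D j x := by
  unfold ww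
  simp_rw [Finset.smul_sum, smul_smul]
  rw [Finset.sum_comm]
  have h1 : ∀ l : Fin m, ∑ j, (P k j x * P l j x) • D l x = (if k = l then (1 : ℝ) else 0) • D l x := by
    intro l
    rw [← Finset.sum_smul, orth_symm (p := fun i j => P i j x) h k l]
  simp_rw [h1]
  simp

theorem bdd_smul_memLp {n : ℕ} {S : Set (E n)} {f : E n → ℝ} {G : E n → E n} {B : ℝ}
    (hf : AEStronglyMeasurable f (volume.restrict S))
    (hb : ∀ᵐ x ∂(volume.restrict S), |f x| ≤ B) (hG : MemLp G 2 (volume.restrict S)) :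
    MemLp (fun x => f x • G x) 2 (volume.restrict S) := by
  refine MemLp.of_le_mul (c := B) hG (hf.smul hG.1) ?_
  filter_upwards [hb] with x hx
  rw [norm_smul, Real.norm_eq_abs]
  exact mul_le_mul_of_nonneg_right hx (norm_nonneg _)

theorem om_memLp {n m : ℕ} {K : ℝ} {u : Fin m → E n → ℝ} {D : Fin m → E n → E n}
    {Om : Fin m → Fin m → E n → E n} (hS : Sys K (ball 0 1) u D Om) (i j : Fin m) :
    MemLp (Om i j) 2 (volume.restrict (ball (0 : E n) 1)) := by
  have h1 : MemLp (fun x => K * ∑ k, ‖D k x‖) 2 (volume.restrict (ball (0 : E n) 1)) := by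
    refine MemLp.const_mul ?_ K
    exact memLp_finsetSum Finset.univ fun k _ => (hS.wb k).d2.norm
  refine MemLp.mono h1 (hS.ms i j) ?_
  filter_upwards [hS.le i j] with x hx
  exact hx.trans (le_abs_self _)

theorem integral_sq_le {n m : ℕ} {K : ℝ} {u : Fin m → E n → ℝ} {D : Fin m → E n → E n}
    {Om : Fin m → Fin m → E n → E n} (hS : Sys K (ball 0 1) u D Om) (i j : Fin m) :
    ∫ x in ball (0 : E n) 1, ‖Om i j x‖ ^ 2 ≤
      K ^ 2 * m * ∑ k, ∫ x in ball (0 : E n) 1, ‖D k x‖ ^ 2 := by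
  have hD : ∀ k, IntegrableOn (fun x => ‖D k x‖ ^ 2) (ball (0 : E n) 1) := fun k =>
    (hS.wb k).d2.integrable_norm_pow (by norm_num)
  have h1 : K ^ 2 * m * ∑ k, ∫ x in ball (0 : E n) 1, ‖D k x‖ ^ 2 =
      ∫ x in ball (0 : E n) 1, K ^ 2 * m * ∑ k, ‖D k x‖ ^ 2 := by
    rw [integral_const_mul, integral_finsetSum _ fun k _ => hD k]
  rw [h1]
  refine integral_mono_ae ((om_memLp hS i j).integrable_norm_pow (by norm_num)) ?_ ?_
  · exact (integrable_finsetSum _ fun k _ => hD k).const_mul _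
  · filter_upwards [hS.le i j] with x hx
    have h2 : (∑ k, ‖D k x‖) ^ 2 ≤ m * ∑ k, ‖D k x‖ ^ 2 := by
      have h4 := sq_sum_le_card_mul_sum_sq (s := (Finset.univ : Finset (Fin m)))
        (f := fun k => ‖D k x‖)
      simpa using h4
    calc ‖Om i j x‖ ^ 2 ≤ (K * ∑ k, ‖D k x‖) ^ 2 := by gcongr
      _ = K ^ 2 * (∑ k, ‖D k x‖) ^ 2 := by ring
      _ ≤ K ^ 2 * (m * ∑ k, ‖D k x‖ ^ 2) := by gcongr
      _ = _ := by ring

theorem pf_WWP : T_WWP := by
  intro n m K u D Om P DP hS hG
  have hPb : ∀ᵐ x ∂(volume.restrict (ball (0 : E n) 1)), ∀ i j, |P i j x| ≤ 1 := by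
    filter_upwards [hG.orth] with x hx i j
    exact orth_le (p := fun i j => P i j x) hx i j
  have hP1 : ∀ i j, ∀ᵐ x ∂(volume.restrict (ball (0 : E n) 1)), |P i j x| ≤ 1 := by
    intro i j
    filter_upwards [hPb] with x hx
    exact hx i j
  have hOm := fun i j => om_memLp hS i j
  refine ⟨?_, ?_, ?_, hOm, ?_⟩
  · filter_upwards [hG.orth, hPb] with x hx hb
    have hinv := fun k => ww_inv D hx k
    refine ⟨hb, hinv, ?_, ?_⟩
    · intro j
      unfold ww
      refine (norm_sum_le _ _).trans (Finset.sum_le_sum fun k _ => ?_)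
      rw [norm_smul, Real.norm_eq_abs]
      exact mul_le_of_le_one_left (norm_nonneg _) (hb k j)
    · intro k
      rw [hinv k]
      refine (norm_sum_le _ _).trans (Finset.sum_le_sum fun j _ => ?_)
      rw [norm_smul, Real.norm_eq_abs]
      exact mul_le_of_le_one_left (norm_nonneg _) (hb k j)
  · intro j
    unfold ww
    exact memLp_finsetSum Finset.univ fun k _ =>
      bdd_smul_memLp (hG.wb k j).ms (hP1 k j) (hS.wb k).d2
  · intro i j
    unfold EE
    refine MemLp.add ?_ ?_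
    · exact memLp_finsetSum Finset.univ fun k _ =>
        bdd_smul_memLp (hG.wb k i).ms (hP1 k i) (hG.wb k j).d2
    · refine memLp_finsetSum Finset.univ fun k _ => memLp_finsetSum Finset.univ fun l _ => ?_
      refine bdd_smul_memLp (B := 1) ((hG.wb k i).ms.mul (hG.wb l j).ms) ?_ (hOm k l)
      filter_upwards [hPb] with x hx
      rw [abs_mul]
      exact mul_le_one₀ (hx k i) (abs_nonneg _) (hx l j)
  · calc ∑ i, ∑ j, ∫ x in ball (0 : E n) 1, ‖Om i j x‖ ^ 2
        ≤ ∑ _i : Fin m, ∑ _j : Fin m,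
          (K ^ 2 * m * ∑ k, ∫ x in ball (0 : E n) 1, ‖D k x‖ ^ 2) :=
          Finset.sum_le_sum fun i _ => Finset.sum_le_sum fun j _ => integral_sq_le hS i j
      _ = _ := by
        simp only [Finset.sum_const, Finset.card_univ, Fintype.card_fin, nsmul_eq_mul]
        ring

end

end Pool.Agent.H48.RG
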