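import Pool.Agent.H48.RG.PartD
import Pool.Agent.H48.RG.WWP
import Pool.Agent.H48.RG.SCL
import Pool.Agent.H39.RG.MIN
import Pool.Agent.H30.RG.RLX
import Pool.Agent.H25.TRI.Out
import Pool.Agent.H86.RG.KER
import Pool.Agent.H34.RG6.DIL
import Pool.Agent.H97.RG6.DCV

/-! Part D of the regularity theorem (MP_2697e3_an): output, the decay of the Morrey norm of the gradient
with the exponent three quarters, without hypotheses. -/

set_option autoImplicit false

namespace Pool.Agent.H48.RG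

theorem o_GAU : T_GAU :=
  Pool.Agent.H39.RG.pf_GAU_RLX Pool.Agent.H30.RG.pf_RLX d_SMW d_LEI d_UNI

theorem o_POT : T_POT :=
  Pool.Agent.H44.RG.pf_POT Pool.Agent.H86.RG.pf_KER Pool.Agent.H34.RG6.pf_DIL
    (Pool.Agent.H97.RG6.pf_DCV Pool.Agent.H34.RG6.pf_DIL)

theorem o_DEC : T_DEC := d_DEC pf_WWP o_GAU Pool.Agent.H25.TRI.out_TRI o_POT

theorem o_SRS : T_SRS := Pool.Agent.H1.RG.pf_SRS

theorem o_SCL : T_SCL := pf_SCL o_DEC

/-- Decay of the Morrey norm of the gradient. -/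
theorem o_ITE : T_ITE := Pool.Agent.H50.RG.pf_ITE o_SRS o_SCL

end Pool.Agent.H48.RG
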