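import Pool.Agent.H94.RG.APX
import Pool.Agent.H94.RG.EXT
import Pool.Agent.H94.RG.POI
import Pool.Agent.H76.RG.CF0
import Pool.Agent.H84.RG.DE2
import Pool.Agent.H29.RG.DEC
import Pool.Agent.H69.RG.DUA
import Pool.Agent.H69.RG.LPI
import Pool.Agent.H46.RG.GEQ
import Pool.Agent.H79.RG.HLM
import Pool.Agent.H53.RG.IBG
import Pool.Agent.H53.RG.LEI
import Pool.Agent.H50.RG.ITE
import Pool.Agent.H50.RG.DE1
import Pool.Agent.H11.RG.MLS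
import Pool.Agent.H44.RG.POT
import Pool.Agent.H67.RG.SMW
import Pool.Agent.H1.RG.SRS
import Pool.Agent.H51.RG.TSE
import Pool.Agent.H75.RG.UNI
import Pool.Agent.H36.RG.POB
import Pool.Agent.H48.RG.MOB

/-! Part D of the regularity theorem (MP_2697e3_an): assembly. -/

set_option autoImplicit false

namespace Pool.Agent.H48.RG

theorem d_SMW : T_SMW := Pool.Agent.H67.RG.pf_SMW

theorem d_EXT : T_EXT := Pool.Agent.H94.RG.pf_EXT

theorem d_TSE : T_TSE := Pool.Agent.H51.RG.TSE.pf_TSE Pool.Agent.H11.RG.pf_MLS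

theorem d_LEI : T_LEI := Pool.Agent.H53.RG.pf_LEI d_SMW d_EXT d_TSE

theorem d_UNI : T_UNI := Pool.Agent.H75.RG.pf_UNI

theorem d_IBG : T_IBG := Pool.Agent.H53.RG.pf_IBG d_EXT d_LEI d_TSE

theorem d_POI : T_POI := Pool.Agent.H94.RG.pf_POI Pool.Agent.H94.RG.pf_APX

theorem d_MOB : T_MOB := pf_MOB d_SMW d_EXT d_POI

theorem d_POB : T_POB := Pool.Agent.H36.RG.pf_POB d_SMW d_EXT d_POI

theorem d_DEC (hWWP : T_WWP) (hGAU : T_GAU) (hTRI : T_TRI) (hPOT : T_POT) : T_DEC :=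
  Pool.Agent.H29.RG.pf_DEC hGAU hWWP (Pool.Agent.H79.RG.pf_HLM hPOT Pool.Agent.H69.RG.pf_LPI)
    (Pool.Agent.H50.RG.pf_DE1 Pool.Agent.H76.RG.pf_CF0 hTRI d_MOB d_EXT d_LEI d_IBG
      (Pool.Agent.H46.RG.pf_GEQ d_TSE d_LEI d_EXT d_UNI hWWP) hWWP)
    (Pool.Agent.H84.RG.pf_DE2 Pool.Agent.H76.RG.pf_CF0 hTRI d_MOB d_POB d_EXT d_LEI d_IBG hWWP)
    Pool.Agent.H69.RG.pf_DUA

end Pool.Agent.H48.RG
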